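import Pool.Agent.CK.MainC
import Pool.Agent.CK.MainG
import Pool.Agent.CK.MainGB

/-!
# Deterministic identity testing for all arithmetic circuits

For fixed `r` and `ε > 0` there is a deterministic algorithm which decides whether an arithmetic
circuit `C` over the rationals computes the zero polynomial, in time polynomial in the length of
the input and in `2 ^ ((√k + t) ^ (1 + ε))`. Here `t` is the number of the wires which leave
reused gates (sums and products which at least two wires leave), and `k` is the number of the
wires which leave heavy variables: variables `x_i` such that more than `r` wires leave the gates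
labelled by `x_i`, or a reused gate depends on `x_i`. There is no bound on the depth, the size or
the degree. The time is expressed by a second input `v`, any word of length at least
`2 ^ ((√k + t) ^ (1 + ε))`; the algorithm takes polynomial time in the length of both inputs.

The second part is the black box version: the algorithm `g` lists, in time polynomial in
`2 ^ ((√k + t) ^ (1 + ε))`, integer points which hit all circuits with at most `k` wires leaving
variables and at most `t` wires leaving reused gates (`k` and `t` are given in unary, as the
lengths of the words `u` and `w`).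
-/

namespace Pool.Agent.Results.MP_e2be99_lc.AllCircuits

open N487b59b3 N68a2faeb
open Pool.Agent.CK (Gt gpoly gHeavy gReused gLeaves gOcc)

theorem result (r : ℕ) (ε : ℝ) (hε : 0 < ε) :
    (∃ f : List Bool × List (ℕ × (ℕ × (ℕ × ℚ))) → Bool, IsPolyTime f ∧
      ∀ (v : List Bool) (C : List Gt),
        (2 : ℝ) ^ ((Real.sqrt (gHeavy r C) + gReused C) ^ (1 + ε)) ≤ v.length →
          (f (v, C.map Gt.code) = true ↔ gpoly C = 0)) ∧
    ∃ g : (List Bool × List Bool) × List Bool → List (List ℕ), IsPolyTime g ∧
      ∀ u w v : List Bool,
        (2 : ℝ) ^ ((Real.sqrt u.length + w.length) ^ (1 + ε)) ≤ v.length →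
          ∀ C : List Gt, gLeaves C ≤ u.length → (∀ i, gOcc C i ≠ 0 → i < u.length) →
            gReused C ≤ w.length → gpoly C ≠ 0 →
              ∃ x ∈ g ((u, w), v),
                MvPolynomial.eval (fun i => ((x.getD i 0 : ℕ) : ℚ)) (gpoly C) ≠ 0 :=
  ⟨Pool.Agent.CK.mainG_of hε (Pool.Agent.CK.mainC r hε), Pool.Agent.CK.mainGB hε⟩

end Pool.Agent.Results.MP_e2be99_lc.AllCircuits
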