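import Pool.Agent.AOR.Tensor

/-!
# Explicit hitting sets of polynomial size for multilinear read-once programs in any order

Over a field of characteristic zero: a nonzero multilinear polynomial `f` in `n` variables, all of
whose flattenings (coefficient matrices with respect to the partitions of the set of variables into
two parts) have rank at most `w`, is nonzero at a point of the explicit set `points n w` of points
with natural coordinates, of size at most `2^30 (n+1)^7 w^80`. These are the polynomials which have a
multilinear read-once oblivious algebraic branching program of width at most `w` in every order of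
the variables; for instance sums of `w` products of univariate affine forms, and their limits. The
same for tensors in `(K^D)^{⊗ n}` all of whose flattenings have rank at most `w`: they are nonzero at
a product vector formed from `log_2 D` points of `points n w`.
-/

namespace Pool.Agent.Kept34.AnyOrderROABP1

open Pool.Agent.AOR

theorem result.{u} : ∀ (K : Type u) [Field K] [CharZero K] (n w : ℕ), 1 ≤ w →
    (points n w).card ≤ 2 ^ 30 * (n + 1) ^ 7 * w ^ 80 ∧
    -- multilinear polynomials with coefficients `a`
    (∀ a : Finset (Fin n) → K, a ≠ 0 → Flat w a →
      ∃ x ∈ points n w, mlEval a (fun i => ((x i : ℕ) : K)) ≠ 0) ∧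
    -- tensors with factors of dimension `D ≤ 2 ^ r`
    (∀ (D r : ℕ) (a : (Fin n → Fin D) → K), D ≤ 2 ^ r → a ≠ 0 → TFlat w a →
      ∃ x : Fin r → Fin n → ℕ, (∀ l, x l ∈ points n w) ∧
        tEval a (fun j c => ∏ l : Fin r,
          (if (c : ℕ).testBit l then ((x l j : ℕ) : K) else 1)) ≠ 0) :=
  fun _ _ _ n w hw => ⟨card_points n w hw, fun a ha hf => hit a ha hf,
    fun _ r a hD ha hf => hit_tensor r hD a ha hf⟩

end Pool.Agent.Kept34.AnyOrderROABP1
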