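import Pool.Agent.RPZ.Main

/-!
# Deterministic polynomial-time identity testing over products of read-once oblivious programs,
read-r formulas and sums of formulas in quadratic polynomials

For fixed constants there is a deterministic Turing machine which decides in polynomial time
whether `Q(T_0, ..., T_{m-1}) = 0`. Here `Q` is an arbitrary arithmetic formula over the rationals,
and at most `k` of the polynomials `T_j` are algebraically independent (for instance `m = k`, and
`Q` is the sum of its variables). There are three kinds of variables, `x_i`, `y_i` and `z_i`. An
item `(p, (A, B))` gives the polynomial `T` which is the product of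

* all factors in the list `p`, which are polynomials in the variables `x_i`, `y_i`;
* all composites in the list `A`, which are polynomials in the variables `z_i`;
* the SUM of all composites in the list `B`, which are polynomials in the variables `z_i`.

A factor is given by a formula over leaves, which are formulas in the variables `x_i` reading every
variable at most `r` times and read-once oblivious algebraic branching programs in the variables
`y_i` (any width, one order of the variables, tame); the polynomial of the factor must be computed
by some formula of bounded depth and bounded occurrence over these leaves, which is not part of the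
input. A composite is `P(q_0, q_1, ...)` for formulas `P`, `q_0`, `q_1`, ...; there are at most `r`
formulas `q_i`, and all of them compute polynomials of degree at most two in the variables outside
`Z`, where `Z` is a set of at most `r` variables, the same for the whole input, which is not given
to the algorithm.
-/

namespace Pool.Agent.Results.MP_e2be99_lc.ProductsQuadraticsInP

open N487b59b3 N68a2faeb MvPolynomial Pool.Agent.RPX Pool.Agent.RPZ
open Pool.Agent.Helper6.WB (Fm)
open Pool.Agent.RP (Rb)
open Pool.Agent.PQR.MainQ (pairCode IsQuad)

theorem result (κ k r t Δ : ℕ) : ∃ f : List (ℕ × ℚ) ×
      List (List (List (ℕ × ℚ) × (List (List (ℕ × ℚ)) × List Rb)) ×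
        (List (List (ℕ × ℚ) × List (List (ℕ × ℚ))) ×
          List (List (ℕ × ℚ) × List (List (ℕ × ℚ))))) → Bool,
    N68a2faeb.IsPolyTime f ∧ ∀ (Q : Fm) (L : List Item) (Z : Finset ℕ), Z.card ≤ r →
      (∀ p ∈ L, ∀ c ∈ p.1, Good κ k r t Δ c) →
      (∀ p ∈ L, ∀ c ∈ p.2.1 ++ p.2.2, IsQuad r Z c) →
      (∀ b : Finset (Fin L.length), AlgebraicIndepOn ℚ (fun i => itemPoly (L.get i))
        (b : Set (Fin L.length)) → b.card ≤ k) →
      (f (Q.code, L.map fun p => (p.1.map facCode, pairCode p.2)) = true ↔
        aeval (fun i => (L.map itemPoly).getD i 0) Q.poly = 0) :=
  Pool.Agent.RPZ.main κ k r t Δ

end Pool.Agent.Results.MP_e2be99_lc.ProductsQuadraticsInP
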