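import Pool.Agent.SPD.Small

/-!
# Explicit hitting sets of polynomial size for polynomials with a small space of derivatives

`derivSpace g` is the space spanned by the partial derivatives of all orders of `g`. Over a field of
characteristic zero, let `f` be a polynomial in `n` variables of degree at most `d` which divides a
product of nonzero polynomials, each of which has a space of derivatives of dimension at most `s`
(or is a limit of such polynomials, or a limit of sums of products of powers of affine forms of size
at most `s`). Then `f` is nonzero at one of the `d n s^2 + 1` integer points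
`x_i = M! (u + u^2/2 + ... + u^M/M)`, `u = i t`, `i = 1..n`, `t = 0, 1, ..., d M`, `M = n s^2`.
In particular this gives black-box identity tests in polynomial time for diagonal circuits of depth
three (sums of powers of affine forms) and for polynomials of small border Waring rank.
-/

namespace Pool.Agent.Results.MP_e2be99_lc.SmallDerivativeSpace

open MvPolynomial Pool.Agent.SPD

theorem result.{u} : ∀ (K : Type u) [Field K] [CharZero K] (n d s m : ℕ)
    (g : Fin m → MvPolynomial (Fin n) K), (∀ j, g j ≠ 0) → (∀ j, Small s (g j)) →
    ∀ f : MvPolynomial (Fin n) K, f ∣ ∏ j, g j → f.totalDegree ≤ d →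
      ∃ t : ℕ, t ≤ d * (n * s ^ 2) ∧
        eval (fun i : Fin n => ((hitPt (n * s ^ 2) ((i : ℕ) + 1) t : ℕ) : K)) f ≠ 0 :=
  fun _ _ _ n d s m g hg0 hgs f hf hd =>
    hit_main n d s m g hg0 (fun j => (hgs j).finrank_le) f hf hd

end Pool.Agent.Results.MP_e2be99_lc.SmallDerivativeSpace
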